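import Pool.Agent.H933.EP.Stm
import Pool.Agent.H784.LL.Cut

/-!
# A density on an annulus which represents the contour integral, from Domar's property
(`P_cut2`; after `H784/LL/Cut`)
-/

set_option autoImplicit false

open MeasureTheory Metric Filter Topology
open scoped Real InnerProductSpace ComplexConjugate

noncomputable section

namespace Pool.Agent.H307.EP

open Pool.Agent.H933.LL Pool.Agent.H933.EP
open Pool.Agent.H685.LL (nsq memLp_bdd)
open Pool.Agent.H784.LL (SubW)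

/-- the members of the subspace are bounded on compact sets by their norms -/
lemma bound2 {M : ℂ → ℝ} {W K : Set ℂ} {ρ : ℝ} (hW : IsOpen W)
    (hρ : 0 < ρ) (hK : ∀ z ∈ K, closedBall z ρ ⊆ W)
    (hM : ∀ᵐ z ∂(volume.restrict W), 1 ≤ M z) (hD : Dom M W) :
    ∃ C : ℝ, 0 < C ∧ ∀ (ε : ℝ) (f : Lp ℂ 2 (volume.restrict W)) (g : ℂ → ℂ), 0 < ε →
      DifferentiableOn ℂ g W →
      (f =ᵐ[volume.restrict W] fun z => g z * (((M z)⁻¹ : ℝ) : ℂ)) → ‖f‖ ≤ ε →
      ∀ z₀ ∈ K, ‖g z₀‖ ≤ C * ε := by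
  obtain ⟨C, hC⟩ := hD 1 ρ zero_le_one hρ
  refine ⟨|C| + 1, by positivity, ?_⟩
  intro ε f g hε hg hfg hf z₀ hz₀
  obtain ⟨G, hG⟩ : ∃ G : ℂ → ℂ, G = fun z => ((ε⁻¹ : ℝ) : ℂ) * g z := ⟨_, rfl⟩
  have hsub : closedBall z₀ ρ ⊆ W := hK z₀ hz₀
  have hb : ball z₀ ρ ⊆ W := ball_subset_closedBall.trans hsub
  have hGd : DifferentiableOn ℂ G W := by
    rw [hG]
    exact hg.const_mul _
  have hfi : Integrable (fun z => ‖f z‖ ^ 2) (volume.restrict W) :=
    (Lp.memLp f).integrable_norm_pow (by norm_num)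
  have hfi2 : Integrable (fun z => (ε⁻¹ * ‖f z‖) ^ 2) (volume.restrict W) := by
    have e : (fun z => (ε⁻¹ * ‖f z‖) ^ 2) = fun z => ε⁻¹ ^ 2 * ‖f z‖ ^ 2 := by
      funext z
      ring
    rw [e]
    exact hfi.const_mul _
  have hpt : ∀ᵐ z ∂(volume.restrict W),
      ENNReal.ofReal ((‖G z‖ / M z) ^ 2) = ENNReal.ofReal ((ε⁻¹ * ‖f z‖) ^ 2) := by
    filter_upwards [hM, hfg] with z h1 h2
    have hMz : 0 < M z := lt_of_lt_of_le one_pos h1
    have e : ‖G z‖ / M z = ε⁻¹ * ‖f z‖ := by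
      rw [h2, hG, norm_mul, norm_mul, Complex.norm_real, Complex.norm_real,
        Real.norm_of_nonneg (by positivity), Real.norm_of_nonneg (by positivity)]
      field_simp
    rw [e]
  have hle : ∫⁻ z in ball z₀ ρ, ENNReal.ofReal ((‖G z‖ / M z) ^ 2) ≤ ENNReal.ofReal 1 := by
    calc ∫⁻ z in ball z₀ ρ, ENNReal.ofReal ((‖G z‖ / M z) ^ 2)
        ≤ ∫⁻ z in W, ENNReal.ofReal ((‖G z‖ / M z) ^ 2) := lintegral_mono_set hb
      _ = ∫⁻ z in W, ENNReal.ofReal ((ε⁻¹ * ‖f z‖) ^ 2) := lintegral_congr_ae hpt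
      _ = ENNReal.ofReal (∫ z in W, (ε⁻¹ * ‖f z‖) ^ 2) :=
          (ofReal_integral_eq_lintegral_ofReal hfi2
            (Eventually.of_forall fun z => sq_nonneg _)).symm
      _ ≤ ENNReal.ofReal 1 := by
          apply ENNReal.ofReal_le_ofReal
          have e : (fun z => (ε⁻¹ * ‖f z‖) ^ 2) = fun z => ε⁻¹ ^ 2 * ‖f z‖ ^ 2 := by
            funext z
            ring
          rw [e, integral_const_mul, ← nsq, ← mul_pow]
          refine pow_le_one₀ (by positivity) ?_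
          rw [inv_mul_le_iff₀ hε, mul_one]
          exact hf
  have h4 := hC G W z₀ hW hsub hsub hGd hle
  rw [hG, norm_mul, Complex.norm_real, Real.norm_of_nonneg (by positivity)] at h4
  rw [inv_mul_le_iff₀ hε] at h4
  have h5 : C ≤ |C| := le_abs_self C
  nlinarith

/-- **P_cut2** -/
theorem p_cut2 : P_cut2 := by
  intro M l r₁ r₂ hr₁ hr hMm hM hDom
  have hm0 : (0 : ℝ) < 1 := one_pos
  obtain ⟨W, hWdef⟩ : ∃ W, W = ann l r₁ r₂ := ⟨_, rfl⟩
  rw [← hWdef] at hMm hM hDom ⊢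
  obtain ⟨R, hR⟩ : ∃ R, R = (r₁ + r₂) / 2 := ⟨_, rfl⟩
  rw [← hR]
  have hR0 : 0 < R := by rw [hR]; linarith
  have hWo : IsOpen W := by
    have e : W = {z : ℂ | r₁ < ‖z - l‖} ∩ {z : ℂ | ‖z - l‖ < r₂} := by
      rw [hWdef]; rfl
    rw [e]
    exact (isOpen_lt continuous_const (by fun_prop)).inter (isOpen_lt (by fun_prop) continuous_const)
  have hWb : W ⊆ ball l r₂ := by
    intro z hz
    rw [hWdef] at hz
    rw [mem_ball, dist_eq_norm]
    exact hz.2
  have hWf : IsFiniteMeasure (volume.restrict W) :=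
    ⟨by rw [Measure.restrict_apply_univ]; exact (measure_mono hWb).trans_lt measure_ball_lt_top⟩
  have hWK : ∀ z ∈ sphere l R, closedBall z ((r₂ - r₁) / 4) ⊆ W := by
    intro z hz x hx
    rw [mem_sphere, dist_eq_norm] at hz
    rw [mem_closedBall, dist_eq_norm] at hx
    rw [hWdef]
    have h1 : ‖x - l‖ ≤ ‖x - z‖ + ‖z - l‖ := norm_sub_le_norm_sub_add_norm_sub x z l
    have h2 : ‖z - l‖ ≤ ‖x - z‖ + ‖x - l‖ := by
      have h3 := norm_sub_le_norm_sub_add_norm_sub z x l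
      rwa [norm_sub_rev z x] at h3
    constructor
    · change r₁ < ‖x - l‖
      linarith
    · change ‖x - l‖ < r₂
      linarith
  have hKW : sphere l R ⊆ W := fun z hz => hWK z hz (mem_closedBall_self (by linarith))
  obtain ⟨C, hC, hbd⟩ := bound2 hWo (ρ := (r₂ - r₁) / 4) (K := sphere l R) (by linarith)
    hWK hM hDom
  have hMi : AEStronglyMeasurable (fun z => (((M z)⁻¹ : ℝ) : ℂ)) (volume.restrict W) :=
    (Complex.measurable_ofReal.comp_aemeasurable hMm.inv).aestronglyMeasurable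
  -- uniqueness on the circle
  have huniq : ∀ (f : Lp ℂ 2 (volume.restrict W)) (g1 g2 : ℂ → ℂ), DifferentiableOn ℂ g1 W →
      DifferentiableOn ℂ g2 W →
      (f =ᵐ[volume.restrict W] fun z => g1 z * (((M z)⁻¹ : ℝ) : ℂ)) →
      (f =ᵐ[volume.restrict W] fun z => g2 z * (((M z)⁻¹ : ℝ) : ℂ)) →
      ∀ z ∈ sphere l R, g1 z = g2 z := by
    intro f g1 g2 hg1 hg2 h1 h2 z hz
    have h0 : ((0 : Lp ℂ 2 (volume.restrict W)) : ℂ → ℂ) =ᵐ[volume.restrict W]
        fun z => (g1 z - g2 z) * (((M z)⁻¹ : ℝ) : ℂ) := by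
      filter_upwards [Lp.coeFn_zero ℂ 2 (volume.restrict W), h1, h2] with z e0 e1 e2
      rw [e0, Pi.zero_apply, sub_mul, ← e1, ← e2, sub_self]
    have h3 : ∀ ε : ℝ, 0 < ε → ‖g1 z - g2 z‖ ≤ C * ε := fun ε hε =>
      hbd ε 0 (fun z => g1 z - g2 z) hε (hg1.sub hg2) h0 (by rw [norm_zero]; exact hε.le) z hz
    have h4 : ‖g1 z - g2 z‖ ≤ 0 := by
      refine le_of_forall_pos_le_add (fun δ hδ => ?_)
      have h5 := h3 (δ / C) (by positivity)
      rw [mul_div_cancel₀ _ hC.ne'] at h5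
      linarith
    exact sub_eq_zero.mp (norm_le_zero_iff.mp h4)
  -- the functional
  have hci : ∀ g : ℂ → ℂ, DifferentiableOn ℂ g W → CircleIntegrable g l R := fun g hg =>
    (hg.continuousOn.mono hKW).circleIntegrable hR0.le
  choose gf hgf1 hgf2 using fun f : SubW M W => f.2
  obtain ⟨c, hcdef⟩ : ∃ c : ℂ, c = (2 * π * Complex.I)⁻¹ := ⟨_, rfl⟩
  rw [← hcdef]
  have hchar : ∀ (f : SubW M W) (g : ℂ → ℂ), DifferentiableOn ℂ g W →
      ((f : Lp ℂ 2 (volume.restrict W)) =ᵐ[volume.restrict W]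
        fun z => g z * (((M z)⁻¹ : ℝ) : ℂ)) →
      (∮ z in C(l, R), gf f z) = ∮ z in C(l, R), g z := fun f g hg hfg =>
    circleIntegral.integral_congr hR0.le (huniq _ _ _ (hgf1 f) hg (hgf2 f) hfg)
  let L0 : SubW M W →ₗ[ℂ] ℂ :=
    { toFun := fun f => c * ∮ z in C(l, R), gf f z
      map_add' := by
        intro f1 f2
        have h1 : (((f1 + f2 : SubW M W) : Lp ℂ 2 (volume.restrict W)) : ℂ → ℂ)
            =ᵐ[volume.restrict W] fun z => (gf f1 z + gf f2 z) * (((M z)⁻¹ : ℝ) : ℂ) := by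
          filter_upwards [Lp.coeFn_add (f1 : Lp ℂ 2 (volume.restrict W)) f2, hgf2 f1, hgf2 f2]
            with z e0 e1 e2
          rw [Submodule.coe_add, e0, Pi.add_apply, e1, e2]
          ring
        rw [hchar (f1 + f2) (fun z => gf f1 z + gf f2 z) ((hgf1 f1).add (hgf1 f2)) h1,
          circleIntegral.integral_add (hci _ (hgf1 f1)) (hci _ (hgf1 f2)), mul_add]
      map_smul' := by
        intro a f
        have h1 : (((a • f : SubW M W) : Lp ℂ 2 (volume.restrict W)) : ℂ → ℂ)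
            =ᵐ[volume.restrict W] fun z => (a * gf f z) * (((M z)⁻¹ : ℝ) : ℂ) := by
          filter_upwards [Lp.coeFn_smul a (f : Lp ℂ 2 (volume.restrict W)), hgf2 f] with z e0 e1
          rw [Submodule.coe_smul, e0, Pi.smul_apply, e1, smul_eq_mul]
          ring
        rw [hchar (a • f) (fun z => a * gf f z) ((hgf1 f).const_mul a) h1, circleIntegral.integral_const_mul,
          RingHom.id_apply, smul_eq_mul]
        ring }
  have hL0 : ∀ f : SubW M W, ‖L0 f‖ ≤ (‖c‖ * (2 * π * R * C)) * ‖f‖ := by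
    intro f
    have h1 : ∀ ε : ℝ, 0 < ε → ‖f‖ ≤ ε → ‖L0 f‖ ≤ (‖c‖ * (2 * π * R * C)) * ε := by
      intro ε hε hfε
      have h2 : ∀ z ∈ sphere l R, ‖gf f z‖ ≤ C * ε :=
        hbd ε f (gf f) hε (hgf1 f) (hgf2 f) hfε
      have h3 := circleIntegral.norm_integral_le_of_norm_le_const hR0.le h2
      change ‖c * ∮ z in C(l, R), gf f z‖ ≤ _
      rw [norm_mul]
      calc ‖c‖ * ‖∮ z in C(l, R), gf f z‖ ≤ ‖c‖ * (2 * π * R * (C * ε)) :=
            mul_le_mul_of_nonneg_left h3 (norm_nonneg _)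
        _ = _ := by ring
    refine le_of_forall_pos_le_add (fun δ hδ => ?_)
    have hA : 0 ≤ ‖c‖ * (2 * π * R * C) := by positivity
    have h4 := h1 (‖f‖ + δ / (‖c‖ * (2 * π * R * C) + 1)) (by positivity)
      (by
        have : 0 ≤ δ / (‖c‖ * (2 * π * R * C) + 1) := by positivity
        linarith)
    refine h4.trans ?_
    rw [mul_add]
    have h5 : ‖c‖ * (2 * π * R * C) * (δ / (‖c‖ * (2 * π * R * C) + 1)) ≤ δ := by
      rw [← mul_div_assoc, div_le_iff₀ (by positivity)]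
      nlinarith
    linarith
  let L1 : StrongDual ℂ (SubW M W) := L0.mkContinuous _ hL0
  obtain ⟨L2, hL2, -⟩ := exists_extension_norm_eq (SubW M W) L1
  obtain ⟨f₀, hf₀⟩ : ∃ f₀ : Lp ℂ 2 (volume.restrict W), ∀ u, ⟪f₀, u⟫_ℂ = L2 u :=
    ⟨(InnerProductSpace.toDual ℂ (Lp ℂ 2 (volume.restrict W))).symm L2, fun u =>
      InnerProductSpace.toDual_symm_apply⟩
  -- the inner products
  have hip : ∀ (u : Lp ℂ 2 (volume.restrict W)) (g : ℂ → ℂ),
      (u =ᵐ[volume.restrict W] fun z => g z * (((M z)⁻¹ : ℝ) : ℂ)) →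
      ∫ z in W, (conj (f₀ z) * (((M z)⁻¹ : ℝ) : ℂ)) * g z = ⟪f₀, u⟫_ℂ := by
    intro u g hu
    rw [MeasureTheory.L2.inner_def]
    refine integral_congr_ae ?_
    filter_upwards [hu] with z hz
    rw [hz, RCLike.inner_apply]
    ring
  have hf₀i : Integrable (fun z => ‖f₀ z‖) (volume.restrict W) :=
    ((Lp.memLp f₀).integrable (by norm_num)).norm
  have hhm : AEStronglyMeasurable (fun z => conj (f₀ z) * (((M z)⁻¹ : ℝ) : ℂ))
      (volume.restrict W) := by
    refine AEStronglyMeasurable.mul ?_ hMi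
    exact Complex.continuous_conj.comp_aestronglyMeasurable (Lp.aestronglyMeasurable f₀)
  refine ⟨fun z => conj (f₀ z) * (((M z)⁻¹ : ℝ) : ℂ), hhm, ?_, ?_, ?_⟩
  · refine Integrable.mono' (hf₀i.const_mul (1 : ℝ)⁻¹) hhm ?_
    filter_upwards [hM] with z hz
    have hMz : 0 < M z := lt_of_lt_of_le hm0 hz
    rw [norm_mul, Complex.norm_real, Real.norm_of_nonneg (inv_nonneg.2 hMz.le), RCLike.norm_conj,
      mul_comm]
    exact mul_le_mul_of_nonneg_right (inv_anti₀ hm0 hz) (norm_nonneg _)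
  · refine Integrable.congr hf₀i ?_
    filter_upwards [hM] with z hz
    have hMz : 0 < M z := lt_of_lt_of_le hm0 hz
    rw [norm_mul, Complex.norm_real, Real.norm_of_nonneg (inv_nonneg.2 hMz.le), RCLike.norm_conj]
    field_simp
  · intro g hg ⟨B, hB⟩
    have hgm : AEStronglyMeasurable (fun z => g z * (((M z)⁻¹ : ℝ) : ℂ))
        (volume.restrict W) :=
      (hg.continuousOn.aestronglyMeasurable hWo.measurableSet).mul hMi
    have hgL : MemLp (fun z => g z * (((M z)⁻¹ : ℝ) : ℂ)) 2 (volume.restrict W) := by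
      refine memLp_bdd (C := |B| * (1 : ℝ)⁻¹) hgm ?_
      filter_upwards [hM, ae_restrict_mem hWo.measurableSet] with z hz hzb
      have hMz : 0 < M z := lt_of_lt_of_le hm0 hz
      rw [norm_mul, Complex.norm_real, Real.norm_of_nonneg (inv_nonneg.2 hMz.le)]
      exact mul_le_mul ((hB z hzb).trans (le_abs_self B)) (inv_anti₀ hm0 hz)
        (inv_nonneg.2 hMz.le) (abs_nonneg _)
    have hmem : hgL.toLp ∈ SubW M W := ⟨g, hg, hgL.coeFn_toLp⟩
    rw [hip hgL.toLp g hgL.coeFn_toLp, hf₀]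
    have h1 := hL2 ⟨hgL.toLp, hmem⟩
    change L2 hgL.toLp = L1 ⟨hgL.toLp, hmem⟩ at h1
    rw [h1]
    change c * (∮ z in C(l, R), gf ⟨hgL.toLp, hmem⟩ z) = _
    rw [hchar ⟨hgL.toLp, hmem⟩ g hg hgL.coeFn_toLp]

end Pool.Agent.H307.EP
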